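import Mathlib
import Pool.Agent.LibPE82.W1
import Pool.Agent.LibPE82.Slow

set_option autoImplicit false

/-!
# No unbounded expansion function bounds the nonrepetitive chromatic number

The gadget `Q 0` is an edge between two terminals; `Q (i+1)` has terminals `s'`, `t'` and layers `A`,
`B` of `N i = 2 q i` vertices, `s'` is adjacent to all of `A`, `t'` to all of `B`, and every pair in
`A x B` is joined by its own copy of `Q i`. The terminals of `Q i` are at distance `2 i + 1`.
A nonrepetitive colouring of `Q j` shows at least `q 0 * ... * q (j-1)` colour words on the paths of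
length `2 j + 1` between the terminals, against `k ^ (2 j)` words in `k` colours, and every
`r`-shallow minor of `Q j` has at most `2 N (2 r) + 2` times as many edges as vertices.
-/

namespace Pool.Agent.Results.MP_b63a31_co.EveryUnboundedExpansion

open LibPE82 LibPE82.Slow

theorem exists_gadget (q : ℕ → ℕ) (hq : ∀ i, 1 ≤ q i) (j : ℕ) :
    ∃ (I : Type) (_ : Fintype I) (G : SimpleGraph (Bool ⊕ I)) (R : Finset (List I)),
      Routes G R (2 * j + 1) ∧ Cnt G R (∏ i ∈ Finset.range j, q i) ∧ Pos G (2 * j + 1) ∧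
      Hier (fun i => 2 * q i) G j := by
  classical
  induction j with
  | zero =>
    refine ⟨Empty, inferInstance, ⊤, {[]}, ?_, ?_, pos_zero, hier_zero _⟩
    · refine ⟨?_, ?_, ?_⟩
      · intro l hl
        rw [Finset.mem_singleton] at hl
        subst hl
        simp
      · intro l hl
        rw [Finset.mem_singleton] at hl
        subst hl
        simp
      · intro l hl
        rw [Finset.mem_singleton] at hl
        subst hl
        simp
    · intro K c _
      simp
  | succ j ih =>
    obtain ⟨I, hI, G, R, h1, h2, h3, h4⟩ := ih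
    have h5 := hq j
    refine ⟨J (2 * q j) I, inferInstance, sub (2 * q j) G, newR (2 * q j) R, ?_, ?_, ?_,
      hier_sub h4 h3⟩
    · have := routes_sub (n := 2 * q j) h1
      rwa [show 2 * j + 1 + 2 = 2 * (j + 1) + 1 by ring] at this
    · apply cnt_sub h1 h2 (by omega)
      rw [Finset.prod_range_succ]
      apply le_of_eq
      ring
    · have := pos_subst (2 * q j) h3
      rwa [show 2 * j + 1 + 2 = 2 * (j + 1) + 1 by ring] at this

theorem exists_walk {V : Type} {G : SimpleGraph V} : ∀ l : List V, l ≠ [] → l.IsChain G.Adj →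
    ∃ (u v : V) (p : G.Walk u v), p.support = l
  | [], h, _ => absurd rfl h
  | [a], _, _ => ⟨a, a, SimpleGraph.Walk.nil, rfl⟩
  | a :: b :: l, _, h => by
    rw [List.isChain_cons_cons] at h
    obtain ⟨u, v, p, hp⟩ := exists_walk (b :: l) (by simp) h.2
    have hub : u = b := by
      have := SimpleGraph.Walk.cons_tail_support p
      rw [hp] at this
      exact (List.cons.inj this).1
    subst hub
    exact ⟨a, v, SimpleGraph.Walk.cons h.1 p, by rw [SimpleGraph.Walk.support_cons, hp]⟩

/-- A slowly growing monotone sequence below `f`. -/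
theorem exists_slow (f : ℕ → ℕ) (hf : Filter.Tendsto f Filter.atTop Filter.atTop)
    (h6 : ∀ r, 6 ≤ f r) : ∃ q : ℕ → ℕ, Monotone q ∧ (∀ i, 1 ≤ q i) ∧
      (∀ r, 2 * (2 * q (2 * r)) + 2 ≤ f r) ∧ ∀ T, ∃ i₀, ∀ i, i₀ ≤ i → T ≤ q i := by
  let g : ℕ → ℕ := fun r => sInf (f '' Set.Ici r)
  have hne : ∀ r, (f '' Set.Ici r).Nonempty := fun r => ⟨f r, r, le_refl r, rfl⟩
  have hg1 : ∀ r s, r ≤ s → g r ≤ f s := fun r s h => Nat.sInf_le ⟨s, h, rfl⟩
  have hg2 : ∀ r, ∃ s, r ≤ s ∧ f s = g r := fun r => by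
    obtain ⟨s, hs, h⟩ := Nat.sInf_mem (hne r)
    exact ⟨s, hs, h⟩
  have hg3 : Monotone g := by
    intro a b hab
    obtain ⟨s, hs, h⟩ := hg2 b
    rw [← h]
    exact hg1 a s (hab.trans hs)
  have hg4 : ∀ r, 6 ≤ g r := fun r => by
    obtain ⟨s, _, h⟩ := hg2 r
    rw [← h]
    exact h6 s
  refine ⟨fun i => (g (i / 2) - 2) / 4, ?_, ?_, ?_, ?_⟩
  · intro a b hab
    have h1 : a / 2 ≤ b / 2 := Nat.div_le_div_right hab
    have h2 := hg3 h1
    exact Nat.div_le_div_right (Nat.sub_le_sub_right h2 2)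
  · intro i
    have := hg4 (i / 2)
    show 1 ≤ (g (i / 2) - 2) / 4
    omega
  · intro r
    have h1 := hg1 r r (le_refl r)
    have h2 := hg4 r
    show 2 * (2 * ((g (2 * r / 2) - 2) / 4)) + 2 ≤ f r
    rw [Nat.mul_div_cancel_left r (by norm_num)]
    omega
  · intro T
    obtain ⟨R, hR⟩ := Filter.eventually_atTop.1 (hf.eventually_ge_atTop (4 * T + 2))
    refine ⟨2 * R, ?_⟩
    intro i hi
    obtain ⟨s, hs, h⟩ := hg2 (i / 2)
    have h1 : R ≤ s := by omega
    have h2 := hR s h1
    show T ≤ (g (i / 2) - 2) / 4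
    omega

theorem exists_length (q : ℕ → ℕ) (h1 : ∀ i, 1 ≤ q i)
    (h2 : ∀ T, ∃ i₀, ∀ i, i₀ ≤ i → T ≤ q i) (k : ℕ) :
    ∃ j : ℕ, k ^ (2 * j) < ∏ i ∈ Finset.range j, q i := by
  obtain ⟨i₀, hi₀⟩ := h2 (2 * (k + 1) ^ 2)
  have key : ∀ m, (2 * (k + 1) ^ 2) ^ m ≤ ∏ i ∈ Finset.range (i₀ + m), q i := by
    intro m
    induction m with
    | zero =>
      rw [pow_zero]
      exact Finset.one_le_prod' fun i _ => h1 i
    | succ m ih =>
      rw [← add_assoc, Finset.prod_range_succ, pow_succ]
      exact Nat.mul_le_mul ih (hi₀ _ (by omega))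
  refine ⟨i₀ + (k + 1) ^ (2 * i₀), lt_of_lt_of_le ?_ (key ((k + 1) ^ (2 * i₀)))⟩
  set m := (k + 1) ^ (2 * i₀) with hm
  have h3 : k ^ (2 * (i₀ + m)) ≤ (k + 1) ^ (2 * (i₀ + m)) := Nat.pow_le_pow_left (by omega) _
  have h4 : (k + 1) ^ (2 * (i₀ + m)) = m * ((k + 1) ^ 2) ^ m := by
    rw [hm, ← pow_mul, ← pow_add]
    congr 1
    ring
  have h5 : (2 * (k + 1) ^ 2) ^ m = 2 ^ m * ((k + 1) ^ 2) ^ m := mul_pow _ _ _
  rw [h5]
  refine lt_of_le_of_lt (h3.trans h4.le) ?_
  exact Nat.mul_lt_mul_of_pos_right Nat.lt_two_pow_self (by positivity)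

/-- For every function `f` with `f r ≥ 6` that tends to infinity (however slowly), the class of all
finite graphs `G` in which every `r`-shallow minor has at most `f r` times as many edges as
vertices, for every `r`, has unbounded nonrepetitive chromatic number. -/
theorem result (f : ℕ → ℕ) (hf : Filter.Tendsto f Filter.atTop Filter.atTop)
    (h6 : ∀ r, 6 ≤ f r) (k : ℕ) : ∃ (V : Type) (_ : Fintype V) (G : SimpleGraph V),
    (∀ (r n : ℕ) (H : SimpleGraph (Fin n)) (B : Fin n → Set V) (x : Fin n → V),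
      (∀ i j, i ≠ j → Disjoint (B i) (B j)) →
      (∀ i, x i ∈ B i ∧ ∀ y ∈ B i, ∃ p : G.Walk (x i) y,
        p.length ≤ r ∧ ∀ z ∈ p.support, z ∈ B i) →
      (∀ i j, H.Adj i j → ∃ a ∈ B i, ∃ b ∈ B j, G.Adj a b) →
      H.edgeSet.ncard ≤ f r * n) ∧
    ¬ ∃ c : V → Fin k, ∀ (u v : V) (p : G.Walk u v), p.IsPath →
      ∀ t : ℕ, p.support.length = 2 * t →
        (p.support.take t).map c ≠ (p.support.drop t).map c := by
  classical
  obtain ⟨q, hq1, hq2, hq3, hq4⟩ := exists_slow f hf h6
  obtain ⟨j, hj⟩ := exists_length q hq2 hq4 k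
  obtain ⟨I, hI, G, R, h1, h2, h3, h4⟩ := exists_gadget q hq2 j
  refine ⟨Bool ⊕ I, inferInstance, G, ?_, ?_⟩
  · intro r n H B x hB hr hH
    have h7 := Hier.exp (N := fun i => 2 * q i) (fun a b hab => Nat.mul_le_mul_left 2 (hq1 hab))
      h4 r n H B x hB hr hH
    exact h7.trans (Nat.mul_le_mul_right _ (hq3 r))
  · rintro ⟨c, hc⟩
    have hNR : NR G c := by
      intro l₁ l₂ hch hn h0 he
      obtain ⟨u, v, p, hp⟩ := exists_walk (l₁ ++ l₂) (by simp [h0]) hch
      have hlen : l₁.length = l₂.length := by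
        have := congrArg List.length he
        simpa using this
      have h1 := hc u v p (by rw [SimpleGraph.Walk.isPath_def, hp]; exact hn) l₁.length
        (by rw [hp, List.length_append]; omega)
      apply h1
      rw [hp, List.take_left, List.drop_left]
      exact he
    have h5 := h2 (Fin k) c hNR
    have h7 : ∏ i ∈ Finset.range j, q i ≤ k ^ (2 * j) := by
      refine h5.trans ?_
      refine (Finset.card_le_card (t := (Finset.univ :
        Finset (List.Vector (Fin k) (2 * j))).image List.Vector.toList) ?_).trans ?_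
      · intro w hw
        simp only [Finset.mem_image] at hw ⊢
        obtain ⟨l, hl, rfl⟩ := hw
        have := h1.length l hl
        refine ⟨⟨l.map (fun i => c (Sum.inr i)), ?_⟩, Finset.mem_univ _, rfl⟩
        rw [List.length_map]
        omega
      · refine Finset.card_image_le.trans ?_
        rw [Finset.card_univ, card_vector, Fintype.card_fin]
    exact absurd h7 (not_le.2 hj)

end Pool.Agent.Results.MP_b63a31_co.EveryUnboundedExpansion
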